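import Pool.Agent.Helper879.ECD.Assemble

set_option autoImplicit false
set_option linter.unusedSectionVars false

namespace Pool.Agent.W139.Box

open Finset
open Pool.Agent.Helper879.ECD (F2 Bal exists_pot bal_of_sum f2_add_self f2_cases)

/-- the five colours at the vertex (v,i) of the product are distinct -/
def Good (r s t a : Fin 3 → Fin 5) : Prop := ∀ i : Fin 3, [r i, s i, t i, a (i+1), a (i+2)].Nodup

instance (r s t a : Fin 3 → Fin 5) : Decidable (Good r s t a) := by
  unfold Good; infer_instance

/-- colour of a nonzero label -/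
def clr (x : F2 × F2) : Fin 5 := if x.1 = 0 then 2 else if x.2 = 0 then 3 else 4

/-- row of an edge of the 2-factor -/
def rowF (L C R : F2 × F2) (σ : F2) : Fin 3 → Fin 5 :=
  if C = 0 then
    (if L = R then
      (if σ = 0 then ![clr L, if clr L = 2 then 3 else 2, if clr L = 4 then 3 else 4]
        else ![if clr L = 2 then 3 else 2, clr L, if clr L = 4 then 3 else 4])
      else (if σ = 0 then ![clr L, clr R, 4 - clr L - clr R] else ![clr R, clr L, 4 - clr L - clr R]))
  else if L = 0 ∨ R = 0 then (if σ = 0 then ![1, clr C, 1] else ![clr C, 0, 0])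
  else ![clr C, clr C, clr C]

/-- row of an edge of the perfect matching -/
def rowM (x : F2 × F2) : Fin 3 → Fin 5 := ![0, 1, clr x]

/-- colours of the triangle edges -/
def rowA (r s t : Fin 3 → Fin 5) : Fin 3 → Fin 5 := fun j =>
  3 * ((r j + s j + t j) - (r (j+1) + s (j+1) + t (j+1)) - (r (j+2) + s (j+2) + t (j+2)))

/-- prescribed difference -/
def dlt (A B C : F2 × F2) : F2 := if C = 0 then 0 else if B = 0 then (if A = C then 0 else 1) else 1

/-- the local check -/
def chk (A B C D : F2 × F2) (s0 s1 : F2) : Bool :=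
  decide (A = B) || (decide (B = C) || (decide (C = D) ||
    ((!(decide (s1 + s0 = dlt A B C)) && (decide (B = 0) || (decide (C = 0) || decide (D = 0)))) ||
    decide (Good (rowF B C D s1) (rowF A B C s0) (rowM (C + B))
      (rowA (rowF B C D s1) (rowF A B C s0) (rowM (C + B)))))))

theorem chk_all : ∀ (A B C D : F2 × F2) (s0 s1 : F2), chk A B C D s0 s1 = true := by
  decide +kernel

theorem check (A B C D : F2 × F2) (s0 s1 : F2) (h1 : A ≠ B) (h2 : B ≠ C) (h3 : C ≠ D)
    (h4 : s1 + s0 = dlt A B C ∨ (B ≠ 0 ∧ C ≠ 0 ∧ D ≠ 0)) :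
    Good (rowF B C D s1) (rowF A B C s0) (rowM (C + B))
      (rowA (rowF B C D s1) (rowF A B C s0) (rowM (C + B))) := by
  have h := chk_all A B C D s0 s1
  unfold chk at h
  simp only [Bool.or_eq_true, Bool.and_eq_true, decide_eq_true_eq, Bool.not_eq_true',
    decide_eq_false_iff_not] at h
  rcases h with h | h | h | h | h
  · exact absurd h h1
  · exact absurd h h2
  · exact absurd h h3
  · rcases h4 with h4 | ⟨h5, h6, h7⟩
    · exact absurd h4 h.1
    · rcases h.2 with h8 | h8 | h8
      · exact absurd h8 h5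
      · exact absurd h8 h6
      · exact absurd h8 h7
  · exact h

theorem avoid : ∀ a b d : F2 × F2, ∃ c : F2 × F2, c ≠ a ∧ c ≠ b ∧ c ≠ d := by
  decide +kernel

variable {V : Type} [Fintype V] [DecidableEq V]

theorem pot (π : Equiv.Perm V) (Y : V → F2) (hY : Bal π Y) :
    ∃ y : V → F2, ∀ v, y v + y (π.symm v) = Y v := by
  obtain ⟨y, hy, _⟩ := exists_pot π id (fun _ => rfl) (fun _ => False) (fun _ h => h) Y hY
    (by intro Z _ _ h v; by_contra hv; exact h v hv)
  exact ⟨y, hy⟩

theorem part2 (π : Equiv.Perm V) (m : V → V) (p q : V → F2)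
    (hnz : ∀ v, p v ≠ 0 ∨ q v ≠ 0) (hp : ∀ v, p (m v) = p v) (hq : ∀ v, q (m v) = q v)
    (hbp : Bal π p) (hbq : Bal π q) :
    ∃ cF cM a : V → Fin 3 → Fin 5, (∀ v, cM (m v) = cM v) ∧
      ∀ v, Good (cF v) (cF (π.symm v)) (cM v) (a v) := by
  obtain ⟨y1, hy1⟩ := pot π p hbp
  obtain ⟨y2, hy2⟩ := pot π q hbq
  let w0 : V → F2 × F2 := fun v => (y1 v, y2 v)
  let rep : V → V := fun v => Quotient.out (Quotient.mk (Equiv.Perm.SameCycle.setoid π) v)
  have hrep : ∀ v, π.SameCycle (rep v) v := fun v =>
    Quotient.exact (Quotient.out_eq (Quotient.mk (Equiv.Perm.SameCycle.setoid π) v))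
  have hrepeq : ∀ u v, π.SameCycle u v → rep u = rep v := by
    intro u v h
    have : (Quotient.mk (Equiv.Perm.SameCycle.setoid π) u) = Quotient.mk _ v := Quotient.sound h
    show Quotient.out _ = Quotient.out _
    rw [this]
  have hreprep : ∀ v, rep (rep v) = rep v := fun v => hrepeq _ _ (hrep v)
  have hrepπ : ∀ v, rep (π v) = rep v := fun v => hrepeq _ _ (by
    rw [Equiv.Perm.sameCycle_apply_left])
  have hreps : ∀ v, rep (π.symm v) = rep v := fun v => by
    have := hrepπ (π.symm v)
    rw [Equiv.apply_symm_apply] at this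
    exact this.symm
  choose cf hcf using fun r : V => avoid (w0 (π.symm r)) (w0 r) (w0 (π r))
  let w : V → F2 × F2 := fun v => w0 v + cf (rep v)
  have hself : ∀ x : F2 × F2, x + x = 0 := by decide +kernel
  have hw : ∀ v, w v + w (π.symm v) = (p v, q v) := by
    intro v
    show w0 v + cf (rep v) + (w0 (π.symm v) + cf (rep (π.symm v))) = _
    rw [hreps]
    have h1 : w0 v + w0 (π.symm v) = (p v, q v) := by
      show (y1 v + y1 (π.symm v), y2 v + y2 (π.symm v)) = _
      rw [hy1, hy2]
    rw [← h1]
    have h2 := hself (cf (rep v))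
    calc w0 v + cf (rep v) + (w0 (π.symm v) + cf (rep v))
        = w0 v + w0 (π.symm v) + (cf (rep v) + cf (rep v)) := by abel
      _ = _ := by rw [h2, add_zero]
  have hwne : ∀ v, w (π.symm v) ≠ w v := by
    intro v h
    have h1 := hw v
    rw [h, hself] at h1
    have h2 : (0 : F2) = p v := congrArg Prod.fst h1
    have h3 : (0 : F2) = q v := congrArg Prod.snd h1
    rcases hnz v with h4 | h4
    · exact h4 h2.symm
    · exact h4 h3.symm
  have hne0 : ∀ x y : F2 × F2, y ≠ x → x + y ≠ 0 := by decide +kernel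
  have hrepw : ∀ v, v = rep v → w (π.symm v) ≠ 0 ∧ w v ≠ 0 ∧ w (π v) ≠ 0 := by
    intro v hv
    have h := hcf v
    refine ⟨?_, ?_, ?_⟩
    · show w0 (π.symm v) + cf (rep (π.symm v)) ≠ 0
      rw [hreps, ← hv]
      exact hne0 _ _ h.1
    · show w0 v + cf (rep v) ≠ 0
      rw [← hv]
      exact hne0 _ _ h.2.1
    · show w0 (π v) + cf (rep (π v)) ≠ 0
      rw [hrepπ, ← hv]
      exact hne0 _ _ h.2.2
  let δ : V → F2 := fun v => dlt (w (π.symm (π.symm v))) (w (π.symm v)) (w v)
  let δ' : V → F2 := fun v =>
    δ v + if v = rep v then ∑ u ∈ univ.filter (fun u => π.SameCycle v u), δ u else 0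
  have hbal : Bal π δ' := by
    apply bal_of_sum
    intro r
    show ∑ v ∈ univ.filter (fun v => π.SameCycle r v), (δ v +
      if v = rep v then ∑ u ∈ univ.filter (fun u => π.SameCycle v u), δ u else 0) = 0
    rw [Finset.sum_add_distrib]
    have h1 : ∑ v ∈ univ.filter (fun v => π.SameCycle r v),
        (if v = rep v then ∑ u ∈ univ.filter (fun u => π.SameCycle v u), δ u else 0) =
        ∑ v ∈ univ.filter (fun v => π.SameCycle r v), δ v := by
      rw [Finset.sum_eq_single (rep r)]
      · rw [if_pos (hreprep r).symm]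
        apply Finset.sum_congr _ (fun _ _ => rfl)
        ext u
        simp only [Finset.mem_filter, Finset.mem_univ, true_and]
        exact ⟨fun h => (hrep r).symm.trans h, fun h => (hrep r).trans h⟩
      · intro v hv hne
        have h2 : π.SameCycle r v := (Finset.mem_filter.1 hv).2
        rw [if_neg]
        intro h3
        apply hne
        rw [h3]
        exact (hrepeq _ _ h2).symm
      · intro h
        exact absurd (Finset.mem_filter.2 ⟨Finset.mem_univ _, (hrep r).symm⟩) h
    rw [h1]
    exact f2_add_self _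
  obtain ⟨σ, hσ⟩ := pot π δ' hbal
  refine ⟨fun v => rowF (w (π.symm v)) (w v) (w (π v)) (σ v), fun v => rowM (p v, q v),
    fun v => rowA (rowF (w (π.symm v)) (w v) (w (π v)) (σ v))
      (rowF (w (π.symm (π.symm v))) (w (π.symm v)) (w (π (π.symm v))) (σ (π.symm v)))
      (rowM (p v, q v)), ?_, ?_⟩
  · intro v
    show rowM _ = rowM _
    rw [hp, hq]
  · intro v
    have h1 : π (π.symm v) = v := Equiv.apply_symm_apply _ _
    have key := check (w (π.symm (π.symm v))) (w (π.symm v)) (w v) (w (π v)) (σ (π.symm v)) (σ v)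
      (hwne _) (hwne _) (by
        have := hwne (π v)
        rw [Equiv.symm_apply_apply] at this
        exact this) (by
        by_cases hv : v = rep v
        · exact Or.inr (hrepw v hv)
        · left
          rw [hσ]
          show δ v + (if v = rep v then _ else 0) = _
          rw [if_neg hv, add_zero])
    rw [hw v] at key
    simp only [h1]
    exact key

end Pool.Agent.W139.Box
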