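import Mathlib

set_option autoImplicit false
set_option linter.unusedSectionVars false

namespace Pool.Agent.W139.Box

open Finset

theorem f1 : ∀ i : Fin 3, i + 2 + 1 = i := by decide
theorem f2 : ∀ i : Fin 3, i + 2 + 2 = i + 1 := by decide
theorem f3 : ∀ i : Fin 3, i + 1 + 2 = i := by decide
theorem f4 : ∀ i : Fin 3, i + 1 + 1 = i + 2 := by decide
theorem f5 : ∀ i j : Fin 3, i ≠ j → j = i + 2 ∨ j = i + 1 := by decide

section

variable {V : Type} (π : Equiv.Perm V) (m : V → V) (cF cM a : V → Fin 3 → Fin 5)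

/-- the edge from x to y of the product has colour k -/
def Col (k : Fin 5) (x y : V × Fin 3) : Prop :=
  (y = (π x.1, x.2) ∧ k = cF x.1 x.2) ∨ (y = (π.symm x.1, x.2) ∧ k = cF (π.symm x.1) x.2) ∨
  (y = (m x.1, x.2) ∧ k = cM x.1 x.2) ∨ (y = (x.1, x.2 + 2) ∧ k = a x.1 (x.2 + 1)) ∨
  (y = (x.1, x.2 + 1) ∧ k = a x.1 (x.2 + 2))

theorem Col.symm (hm : ∀ v, m (m v) = v) (hcM : ∀ v, cM (m v) = cM v) {k : Fin 5}
    {x y : V × Fin 3} (h : Col π m cF cM a k x y) : Col π m cF cM a k y x := by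
  obtain ⟨v, i⟩ := x
  have h1 : i + 2 + 1 = i := f1 i
  have h2 : i + 2 + 2 = i + 1 := f2 i
  have h3 : i + 1 + 2 = i := f3 i
  have h4 : i + 1 + 1 = i + 2 := f4 i
  rcases h with ⟨rfl, rfl⟩ | ⟨rfl, rfl⟩ | ⟨rfl, rfl⟩ | ⟨rfl, rfl⟩ | ⟨rfl, rfl⟩
  · right; left
    simp
  · left
    simp
  · right; right; left
    simp [hm, hcM]
  · right; right; right; right
    simp [h1, h2]
  · right; right; right; left
    simp [h3, h4]

theorem Col.exists (hgood : ∀ v i, [cF v i, cF (π.symm v) i, cM v i, a v (i+1), a v (i+2)].Nodup)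
    (k : Fin 5) (x : V × Fin 3) : ∃ y, Col π m cF cM a k x y := by
  obtain ⟨v, i⟩ := x
  have h := hgood v i
  have h1 : [cF v i, cF (π.symm v) i, cM v i, a v (i+1), a v (i+2)].toFinset = univ :=
    Finset.eq_univ_of_card _ (by rw [List.toFinset_card_of_nodup h]; rfl)
  have h2 : k ∈ [cF v i, cF (π.symm v) i, cM v i, a v (i+1), a v (i+2)].toFinset := by
    rw [h1]; exact Finset.mem_univ _
  simp only [List.mem_toFinset, List.mem_cons, List.not_mem_nil, or_false] at h2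
  rcases h2 with h2 | h2 | h2 | h2 | h2
  · exact ⟨_, Or.inl ⟨rfl, h2⟩⟩
  · exact ⟨_, Or.inr (Or.inl ⟨rfl, h2⟩)⟩
  · exact ⟨_, Or.inr (Or.inr (Or.inl ⟨rfl, h2⟩))⟩
  · exact ⟨_, Or.inr (Or.inr (Or.inr (Or.inl ⟨rfl, h2⟩)))⟩
  · exact ⟨_, Or.inr (Or.inr (Or.inr (Or.inr ⟨rfl, h2⟩)))⟩

theorem Col.unique (hgood : ∀ v i, [cF v i, cF (π.symm v) i, cM v i, a v (i+1), a v (i+2)].Nodup)
    {k : Fin 5} {x y y' : V × Fin 3} (h : Col π m cF cM a k x y)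
    (h' : Col π m cF cM a k x y') : y = y' := by
  obtain ⟨v, i⟩ := x
  have hn := hgood v i
  simp only [List.nodup_cons, List.mem_cons, List.not_mem_nil, or_false, not_or,
    List.nodup_nil, and_true, not_false_eq_true] at hn
  obtain ⟨⟨a1, a2, a3, a4⟩, ⟨b1, b2, b3⟩, ⟨c1, c2⟩, d1⟩ := hn
  rcases h with ⟨h1, h2⟩ | ⟨h1, h2⟩ | ⟨h1, h2⟩ | ⟨h1, h2⟩ | ⟨h1, h2⟩ <;>
  rcases h' with ⟨h3, h4⟩ | ⟨h3, h4⟩ | ⟨h3, h4⟩ | ⟨h3, h4⟩ | ⟨h3, h4⟩ <;>
  first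
  | (exact h1.trans h3.symm)
  | (exfalso
     rw [h2] at h4
     dsimp only at h4
     first
     | exact a1 h4 | exact a1 h4.symm | exact a2 h4 | exact a2 h4.symm
     | exact a3 h4 | exact a3 h4.symm | exact a4 h4 | exact a4 h4.symm
     | exact b1 h4 | exact b1 h4.symm | exact b2 h4 | exact b2 h4.symm
     | exact b3 h4 | exact b3 h4.symm | exact c1 h4 | exact c1 h4.symm
     | exact c2 h4 | exact c2 h4.symm | exact d1 h4 | exact d1 h4.symm)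

end

theorem part3 {V : Type} [Fintype V] [DecidableEq V] (G : SimpleGraph V) [DecidableRel G.Adj]
    (π : Equiv.Perm V) (m : V → V) (hm : ∀ v, m (m v) = v)
    (hadj : ∀ v w, G.Adj v w ↔ (w = π v ∨ w = π.symm v ∨ w = m v))
    (hne : ∀ v, π v ≠ π.symm v ∧ m v ≠ π v ∧ m v ≠ π.symm v)
    (cF cM a : V → Fin 3 → Fin 5) (hcM : ∀ v, cM (m v) = cM v)
    (hgood : ∀ v, ∀ i : Fin 3, [cF v i, cF (π.symm v) i, cM v i, a v (i+1), a v (i+2)].Nodup) :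
    ∃ (k : ℕ) (M : Fin k → (SimpleGraph.boxProd G (⊤ : SimpleGraph (Fin 3))).Subgraph),
      (∀ i, (M i).IsPerfectMatching) ∧
      ∀ e ∈ (SimpleGraph.boxProd G (⊤ : SimpleGraph (Fin 3))).edgeSet, ∃! i, e ∈ (M i).edgeSet := by
  have hi1 : ∀ i : Fin 3, i ≠ i + 1 := by decide
  have hi2 : ∀ i : Fin 3, i ≠ i + 2 := by decide
  have hi3 : ∀ i : Fin 3, i + 1 ≠ i + 2 := by decide
  have hsub : ∀ k x y, Col π m cF cM a k x y →
      (SimpleGraph.boxProd G (⊤ : SimpleGraph (Fin 3))).Adj x y := by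
    rintro k ⟨v, i⟩ y h
    rw [SimpleGraph.boxProd_adj]
    rcases h with ⟨rfl, _⟩ | ⟨rfl, _⟩ | ⟨rfl, _⟩ | ⟨rfl, _⟩ | ⟨rfl, _⟩
    · left; exact ⟨(hadj _ _).2 (Or.inl rfl), rfl⟩
    · left; exact ⟨(hadj _ _).2 (Or.inr (Or.inl rfl)), rfl⟩
    · left; exact ⟨(hadj _ _).2 (Or.inr (Or.inr rfl)), rfl⟩
    · right; exact ⟨(SimpleGraph.top_adj _ _).2 (hi2 i), rfl⟩
    · right; exact ⟨(SimpleGraph.top_adj _ _).2 (hi1 i), rfl⟩
  have hex : ∀ x y, (SimpleGraph.boxProd G (⊤ : SimpleGraph (Fin 3))).Adj x y →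
      ∃ k, Col π m cF cM a k x y := by
    rintro ⟨v, i⟩ ⟨w, j⟩ h
    rw [SimpleGraph.boxProd_adj] at h
    rcases h with ⟨h1, h2⟩ | ⟨h1, h2⟩
    · simp only at h1 h2
      subst h2
      rcases (hadj _ _).1 h1 with rfl | rfl | rfl
      · exact ⟨_, Or.inl ⟨rfl, rfl⟩⟩
      · exact ⟨_, Or.inr (Or.inl ⟨rfl, rfl⟩)⟩
      · exact ⟨_, Or.inr (Or.inr (Or.inl ⟨rfl, rfl⟩))⟩
    · simp only [SimpleGraph.top_adj] at h1 h2
      subst h2
      have h3 : j = i + 2 ∨ j = i + 1 := f5 i j h1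
      rcases h3 with rfl | rfl
      · exact ⟨_, Or.inr (Or.inr (Or.inr (Or.inl ⟨rfl, rfl⟩)))⟩
      · exact ⟨_, Or.inr (Or.inr (Or.inr (Or.inr ⟨rfl, rfl⟩)))⟩
  have huk : ∀ k k' x y, Col π m cF cM a k x y → Col π m cF cM a k' x y → k = k' := by
    rintro k k' ⟨v, i⟩ y h h'
    obtain ⟨n1, n2, n3⟩ := hne v
    have e1 := hi1 i
    have e2 := hi2 i
    have e3 := hi3 i
    rcases h with ⟨h1, h2⟩ | ⟨h1, h2⟩ | ⟨h1, h2⟩ | ⟨h1, h2⟩ | ⟨h1, h2⟩ <;>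
    rcases h' with ⟨h3, h4⟩ | ⟨h3, h4⟩ | ⟨h3, h4⟩ | ⟨h3, h4⟩ | ⟨h3, h4⟩ <;>
    first
    | (exact h2.trans h4.symm)
    | (exfalso
       rw [h1, Prod.mk.injEq] at h3
       obtain ⟨h5, h6⟩ := h3
       dsimp only at h5 h6
       first
       | exact n1 h5 | exact n1 h5.symm | exact n2 h5 | exact n2 h5.symm | exact n3 h5
       | exact n3 h5.symm | exact e1 h6 | exact e1 h6.symm | exact e2 h6 | exact e2 h6.symm
       | exact e3 h6 | exact e3 h6.symm)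
  refine ⟨5, fun k =>
    { verts := Set.univ
      Adj := Col π m cF cM a k
      adj_sub := fun h => hsub k _ _ h
      edge_vert := fun _ => Set.mem_univ _
      symm := ⟨fun _ _ h => Col.symm π m cF cM a hm hcM h⟩ }, ?_, ?_⟩
  · intro k
    refine ⟨?_, fun _ => Set.mem_univ _⟩
    intro x _
    obtain ⟨y, hy⟩ := Col.exists π m cF cM a hgood k x
    exact ⟨y, hy, fun y' hy' => Col.unique π m cF cM a hgood hy' hy⟩
  · intro e
    induction e using Sym2.ind with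
    | _ x y =>
    intro he
    rw [SimpleGraph.mem_edgeSet] at he
    obtain ⟨k, hk⟩ := hex x y he
    refine ⟨k, ?_, ?_⟩
    · show s(x, y) ∈ SimpleGraph.Subgraph.edgeSet _
      rw [SimpleGraph.Subgraph.mem_edgeSet]
      exact hk
    · intro k' hk'
      have h1 : s(x, y) ∈ SimpleGraph.Subgraph.edgeSet _ := hk'
      rw [SimpleGraph.Subgraph.mem_edgeSet] at h1
      exact huk _ _ _ _ h1 hk

end Pool.Agent.W139.Box
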